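import Pool.Agent.helper16.EXC.Spec3

set_option autoImplicit false

open Finset

namespace Pool.Agent.EXC

theorem ZC0_rep {A : Type} [Monoid A] {P : Type} (φ : P → A) (a b : P) (m : ℕ) :
    (((List.replicate m [a, b]).flatten).map φ).prod = (φ a * φ b) ^ m := by
  induction m with
  | zero => simp
  | succ m ih =>
    rw [List.replicate_succ, List.flatten_cons, List.map_append, List.prod_append, ih, pow_succ']
    simp

theorem ZC0_word {A : Type} [Monoid A] {P : Type} (φ : P → A) (a b c d e g : P) (m : ℕ) :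
    ((((List.replicate m [a, b]).flatten) ++ (c :: (((List.replicate m [d, e]).flatten) ++ [g]))).map φ).prod =
      (φ a * φ b) ^ m * (φ c * ((φ d * φ e) ^ m * φ g)) := by
  rw [List.map_append, List.prod_append, ZC0_rep, List.map_cons, List.prod_cons, List.map_append, List.prod_append,
    ZC0_rep]
  simp

theorem ZC0_pow {A : Type} [Monoid A] {a b : A} (h : a * b = 1) (m : ℕ) : a ^ m * b ^ m = 1 := by
  induction m with
  | zero => simp
  | succ m ih =>
    rw [pow_succ, pow_succ', mul_assoc, ← mul_assoc a b, h, one_mul, ih]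

section
variable {n : ℕ} (C : Matrix (Fin n) (Fin n) ℤ) [IsC C] {F : Type} [Field F]

theorem ZC0_uniq {a : Lm C F} {t : F} {g h : EG C F} (hg : IsX C a t (g : Lm C F ≃ₗ[F] Lm C F))
    (hh : IsX C a t (h : Lm C F ≃ₗ[F] Lm C F)) : g = h := by
  apply Subtype.ext
  refine LinearEquiv.ext fun v => ?_
  rw [hg v, hh v]

theorem ZC0_one (a : Lm C F) : IsX C a 0 (((1 : EG C F) : EG C F) : Lm C F ≃ₗ[F] Lm C F) := by
  intro v
  change v = xe C a 0 v
  unfold xe
  simp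

theorem ZC0_Ex {k : Lm C F ≃ₗ[F] Lm C F} (hk : k ∈ GE C F) {a : Lm C F} {α : Fin n → ℤ} (hα : ip C α α = 2) {c : F}
    (hc : c ≠ 0) (h : k a = c • E C α) : Ex C a := by
  refine ⟨k⁻¹, (GE C F).inv_mem hk, α, hα, c, hc, ?_⟩
  have h1 : k⁻¹ (k a) = a := k.symm_apply_apply a
  rw [← h1, h, map_smul]

end

theorem ZC0 (hZW2 : ZW2_stmt) (hZMT : ZMT_stmt) (hFIX : FIX_stmt) (hEXF : EXF_stmt) (hNBR : NBR_stmt) : ZC0_stmt := by
  intro n C _ F _ j0 θ δ hE b f t t' s s' hTp hfm ht' hs c1 c2 c3 c4 m hm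
  classical
  obtain ⟨-, -, hex, -⟩ := hEXF n C F (hNBR n C j0 θ δ hE).1
  have hbf : Ex C b ∧ Ex C f := by
    obtain ⟨k, hk, β, hβ, -, c, c', hc, hc', e1, e2⟩ := hTp
    exact ⟨ZC0_Ex C hk hE.th2 hc e1, ZC0_Ex C hk hβ hc' e2⟩
  obtain ⟨-, -, -, -, hbx, -, -, -, hbm⟩ := hex b hbf.1
  obtain ⟨-, -, -, -, hfx, -, -, -, hfm'⟩ := hex f hbf.2
  have hch : ∀ p : Bool × F, ∃ g : EG C F, IsX C (if p.1 then f else b) p.2 (g : Lm C F ≃ₗ[F] Lm C F) := by
    rintro ⟨i, u⟩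
    cases i
    · obtain ⟨g, hg, hg'⟩ := hbx u
      exact ⟨⟨g, hg⟩, hg'⟩
    · obtain ⟨g, hg, hg'⟩ := hfx u
      exact ⟨⟨g, hg⟩, hg'⟩
  choose h hh using hch
  have e1 : h (false, 1) = t' := ZC0_uniq C (hh (false, 1)) ht'
  have e2 : h (true, 1) = s := ZC0_uniq C (hh (true, 1)) hs
  have e3 : t' * h (false, -1) = 1 := by
    have h1 := hbm 1 (-1) _ _ ht' (hh (false, -1))
    rw [add_neg_cancel] at h1
    exact ZC0_uniq C (g := t' * h (false, -1)) h1 (ZC0_one C b)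
  have e4 : s * h (true, -1) = 1 := by
    have h1 := hfm' 1 (-1) _ _ hs (hh (true, -1))
    rw [add_neg_cancel] at h1
    exact ZC0_uniq C (g := s * h (true, -1)) h1 (ZC0_one C f)
  have e3' : h (false, -1) = t'⁻¹ := eq_inv_of_mul_eq_one_right e3
  have e4' : h (true, -1) = s⁻¹ := eq_inv_of_mul_eq_one_right e4
  -- the power of `k₂` commutes with `t'`
  have ht1 : Commute t' t⁻¹ := (Commute.inv_right (show Commute t' t from c1.symm))
  have hk1 : Commute (t⁻¹ * s') t' := Commute.mul_left ht1.symm (show Commute s' t' from c3.symm)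
  have hk1s : Commute (t⁻¹ * s') s := Commute.mul_left (Commute.inv_left (show Commute t s from c2)) (show Commute s' s from c4.symm)
  have hk12 : Commute (t⁻¹ * s') (t' * s⁻¹) := Commute.mul_right hk1 hk1s.inv_right
  have hz : (t' * t⁻¹) * (s' * s⁻¹) = (t⁻¹ * s') * (t' * s⁻¹) := by
    calc (t' * t⁻¹) * (s' * s⁻¹) = (t' * t⁻¹) * s' * s⁻¹ := by group
      _ = t⁻¹ * (t' * s') * s⁻¹ := by rw [ht1.eq]; group
      _ = t⁻¹ * (s' * t') * s⁻¹ := by rw [c3]
      _ = (t⁻¹ * s') * (t' * s⁻¹) := by group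
  have hzm : ((t' * t⁻¹) * (s' * s⁻¹)) ^ m = 1 := by
    refine (hFIX n C F j0 θ δ hE).2 _ fun g => ?_
    have h1 : MulAut.conj (((t' * t⁻¹) * (s' * s⁻¹)) ^ m) = 1 := by rw [map_pow]; exact hm
    have h2 := congrArg (fun y : MulAut (EG C F) => y g) h1
    have h3 : ((t' * t⁻¹) * (s' * s⁻¹)) ^ m * g * (((t' * t⁻¹) * (s' * s⁻¹)) ^ m)⁻¹ = g := h2
    exact mul_inv_eq_iff_eq_mul.1 h3
  rw [hz, hk12.mul_pow] at hzm
  have hk2m : Commute ((t' * s⁻¹) ^ m) t' := by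
    have h1 : (t' * s⁻¹) ^ m = ((t⁻¹ * s') ^ m)⁻¹ := eq_inv_of_mul_eq_one_right hzm
    rw [h1]
    exact (hk1.pow_left m).inv_left
  -- the word
  have hw := hZW2 n C F j0 θ δ hE b f hTp h hh
    (((List.replicate m [((false, 1) : Bool × F), (true, -1)]).flatten) ++
      (((false, 1) : Bool × F) :: (((List.replicate m [((true, 1) : Bool × F), (false, -1)]).flatten) ++ [((false, -1) : Bool × F)]))) ?_
  · rw [ZC0_word, hfm] at hw
    simp only [Bool.false_eq_true, if_false, if_true, neg_neg, mul_one, mul_neg, neg_mul, one_mul] at hw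
    have hM : (!![1, -1; 0, 1] : Matrix (Fin 2) (Fin 2) F) * !![1, 0; 1, 1] = !![0, -1; 1, 1] := by
      ext i j
      fin_cases i <;> fin_cases j <;> simp [Matrix.mul_apply, Fin.sum_univ_two]
    have hN : (!![1, 0; -1, 1] : Matrix (Fin 2) (Fin 2) F) * !![1, 1; 0, 1] = !![1, 1; -1, 0] := by
      ext i j
      fin_cases i <;> fin_cases j <;> simp [Matrix.mul_apply, Fin.sum_univ_two]
    rw [hM, hN] at hw
    have hMN : (!![1, 1; -1, 0] : Matrix (Fin 2) (Fin 2) F) * !![0, -1; 1, 1] = 1 := by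
      ext i j
      fin_cases i <;> fin_cases j <;> simp [Matrix.mul_apply, Fin.sum_univ_two]
    have hVU : (!![1, 1; 0, 1] : Matrix (Fin 2) (Fin 2) F) * !![1, -1; 0, 1] = 1 := by
      ext i j
      fin_cases i <;> fin_cases j <;> simp [Matrix.mul_apply, Fin.sum_univ_two]
    refine (hZMT F).1 m ?_
    have h5 := ZC0_pow hMN m
    calc (!![0, -1; 1, 1] : Matrix (Fin 2) (Fin 2) F) ^ m * !![1, -1; 0, 1]
        = !![0, -1; 1, 1] ^ m * !![1, -1; 0, 1] * (!![1, 1; -1, 0] ^ m * (!![1, 1; 0, 1] * !![1, -1; 0, 1]) * !![0, -1; 1, 1] ^ m) := by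
          rw [hVU, mul_one, h5, mul_one]
      _ = (!![0, -1; 1, 1] ^ m * (!![1, -1; 0, 1] * (!![1, 1; -1, 0] ^ m * !![1, 1; 0, 1]))) * (!![1, -1; 0, 1] * !![0, -1; 1, 1] ^ m) := by
          simp only [mul_assoc]
      _ = !![1, -1; 0, 1] * !![0, -1; 1, 1] ^ m := by rw [hw, one_mul]
  · rw [ZC0_word, e1, e2, e3', e4']
    have h6 : (s * t'⁻¹) ^ m = ((t' * s⁻¹) ^ m)⁻¹ := by
      rw [← inv_pow, mul_inv_rev, inv_inv]
    rw [h6, ← mul_assoc, hk2m.eq]
    group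

end Pool.Agent.EXC
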